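import Pool.Agent.Helper33.DZ.Stmts

open Complex Polynomial

namespace Pool.Agent.Helper33.DZ

theorem sgn_const (G : ℝ[X]) (h : ∀ t : ℝ, 1 < t → G.eval t ≠ 0) :
    ∃ σ : ℝ, (σ = 1 ∨ σ = -1) ∧ ∀ t : ℝ, 1 < t → 0 ≤ σ * G.eval t := by
  have key : ∀ t : ℝ, 1 < t → 0 < G.eval 2 * G.eval t := by
    intro t ht
    by_contra hc
    push Not at hc
    have hcont : ContinuousOn (fun x => G.eval x) (Set.uIcc 2 t) := G.continuous.continuousOn
    have hsub := intermediate_value_uIcc hcont
    have h0 : (0 : ℝ) ∈ Set.uIcc (G.eval 2) (G.eval t) := by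
      rw [Set.mem_uIcc]
      rcases le_total 0 (G.eval 2) with h2 | h2
      · right
        refine ⟨?_, h2⟩
        have h3 : 0 < G.eval 2 := lt_of_le_of_ne h2 (Ne.symm (h 2 (by norm_num)))
        by_contra h4
        push Not at h4
        nlinarith
      · left
        refine ⟨h2, ?_⟩
        have h3 : G.eval 2 < 0 := lt_of_le_of_ne h2 (h 2 (by norm_num))
        by_contra h4
        push Not at h4
        nlinarith
    obtain ⟨x, hx, hx0⟩ := hsub h0
    refine h x ?_ hx0
    rw [Set.mem_uIcc] at hx
    rcases hx with hx | hx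
    · linarith [hx.1]
    · linarith [hx.1]
  rcases le_total 0 (G.eval 2) with h2 | h2
  · refine ⟨1, Or.inl rfl, fun t ht => ?_⟩
    have h1 := key t ht
    rw [one_mul]
    by_contra h4
    push Not at h4
    nlinarith
  · refine ⟨-1, Or.inr rfl, fun t ht => ?_⟩
    have h1 := key t ht
    by_contra h4
    push Not at h4
    nlinarith

theorem st_SGN : ST_SGN := by
  have main : ∀ n : ℕ, ∀ G : ℝ[X], G ≠ 0 → G.natDegree ≤ n → ∃ S : Finset ℝ,
      (∀ x ∈ S, 1 < x ∧ G.IsRoot x) ∧ ∃ σ : ℝ, (σ = 1 ∨ σ = -1) ∧
      ∀ t : ℝ, 1 < t → 0 ≤ σ * (G.eval t * ∏ x ∈ S, (t - x)) := by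
    intro n
    induction n with
    | zero =>
      intro G hG hd
      have hnr : ∀ t : ℝ, 1 < t → G.eval t ≠ 0 := by
        intro t _ h0
        have h1 : G = C (G.coeff 0) := eq_C_of_natDegree_le_zero hd
        rw [h1, eval_C] at h0
        rw [h0, C_0] at h1
        exact hG h1
      obtain ⟨σ, hσ, h⟩ := sgn_const G hnr
      exact ⟨∅, by simp, σ, hσ, fun t ht => by simpa using h t ht⟩
    | succ n ih =>
      intro G hG hd
      by_cases hr : ∃ r : ℝ, 1 < r ∧ G.IsRoot r
      · obtain ⟨r, hr1, hr⟩ := hr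
        obtain ⟨G1, hG1⟩ := dvd_iff_isRoot.2 hr
        have hG10 : G1 ≠ 0 := by
          intro h0
          rw [h0, mul_zero] at hG1
          exact hG hG1
        have hd1 : G1.natDegree ≤ n := by
          have h1 := congrArg natDegree hG1
          rw [natDegree_mul (X_sub_C_ne_zero r) hG10, natDegree_X_sub_C] at h1
          omega
        obtain ⟨S1, hS1, σ, hσ, hs⟩ := ih G1 hG10 hd1
        have hroot : ∀ x, G1.IsRoot x → G.IsRoot x := by
          intro x hx
          rw [hG1]
          exact root_mul_left_of_isRoot _ hx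
        have hev : ∀ t : ℝ, G.eval t = (t - r) * G1.eval t := by
          intro t
          rw [hG1, eval_mul, eval_sub, eval_X, eval_C]
        by_cases hrS : r ∈ S1
        · refine ⟨S1.erase r, ?_, σ, hσ, ?_⟩
          · intro x hx
            have hx1 := Finset.mem_of_mem_erase hx
            exact ⟨(hS1 x hx1).1, hroot x (hS1 x hx1).2⟩
          · intro t ht
            have h1 := hs t ht
            rw [← Finset.mul_prod_erase S1 (fun x => t - x) hrS] at h1
            have h2 : G.eval t * ∏ x ∈ S1.erase r, (t - x) =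
                G1.eval t * ((t - r) * ∏ x ∈ S1.erase r, (t - x)) := by
              rw [hev t]; ring
            rw [h2]
            exact h1
        · refine ⟨insert r S1, ?_, σ, hσ, ?_⟩
          · intro x hx
            rcases Finset.mem_insert.1 hx with hx | hx
            · rw [hx]; exact ⟨hr1, hr⟩
            · exact ⟨(hS1 x hx).1, hroot x (hS1 x hx).2⟩
          · intro t ht
            have h1 := hs t ht
            rw [Finset.prod_insert hrS]
            have h2 : σ * (G.eval t * ((t - r) * ∏ x ∈ S1, (t - x))) =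
                (t - r) ^ 2 * (σ * (G1.eval t * ∏ x ∈ S1, (t - x))) := by
              rw [hev t]; ring
            rw [h2]
            exact mul_nonneg (sq_nonneg _) h1
      · push Not at hr
        obtain ⟨σ, hσ, h⟩ := sgn_const G (fun t ht h0 => hr t ht h0)
        exact ⟨∅, by simp, σ, hσ, fun t ht => by simpa using h t ht⟩
  intro G hG
  exact main G.natDegree G hG le_rfl

end Pool.Agent.Helper33.DZ
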